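import Pool.Agent.Lib_helper15.C10.Defs3

/-!
# Module H0: the transference inequality
-/

set_option autoImplicit false
set_option synthInstance.maxHeartbeats 400000
set_option maxHeartbeats 4000000

universe u

namespace Pool.Agent.C10.H0

open Finset

lemma sum_zmod {M : Type*} [AddCommMonoid M] (Q : ℕ) [NeZero Q] (g : ZMod Q → M) :
    ∑ x : ZMod Q, g x = ∑ j ∈ range Q, g (j : ZMod Q) := by
  obtain ⟨n, rfl⟩ : ∃ n, Q = n + 1 := ⟨Q - 1, by have := NeZero.ne Q; omega⟩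
  rw [← Fin.sum_univ_eq_sum_range (fun j => g (j : ZMod (n + 1)))]
  refine Finset.sum_congr rfl fun x _ => ?_
  congr 1
  exact (ZMod.natCast_zmod_val (n := n + 1) x).symm

variable {H : Type u} [NormedAddCommGroup H] [InnerProductSpace ℂ H] {Q : ℕ} [NeZero Q]

/-- discrete Fourier transform -/
noncomputable def F (v : ZMod Q → H) (ξ : ZMod Q) : H :=
  ∑ j, (ZMod.stdAddChar (-(j * ξ)) : ℂ) • v j

lemma parseval (v : ZMod Q → H) :
    ∑ ξ, ‖F v ξ‖ ^ 2 = (Q : ℝ) * ∑ j, ‖v j‖ ^ 2 := by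
  have h : ((∑ ξ, ‖F v ξ‖ ^ 2 : ℝ) : ℂ) = ((Q : ℝ) * ∑ j, ‖v j‖ ^ 2 : ℝ) := by
    have h1 : ∀ ξ, ((‖F v ξ‖ ^ 2 : ℝ) : ℂ) =
        ∑ j, ∑ k, (ZMod.stdAddChar (ξ * (j - k)) : ℂ) * inner ℂ (v j) (v k) := by
      intro ξ
      have e1 : ((‖F v ξ‖ ^ 2 : ℝ) : ℂ) = inner ℂ (F v ξ) (F v ξ) := by
        rw [inner_self_eq_norm_sq_to_K]
        push_cast
        rfl
      rw [e1, F, sum_inner]
      refine Finset.sum_congr rfl fun j _ => ?_
      rw [inner_sum]
      refine Finset.sum_congr rfl fun k _ => ?_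
      rw [inner_smul_left, inner_smul_right, ← mul_assoc]
      congr 1
      have e2 : (starRingEnd ℂ) (ZMod.stdAddChar (-(j * ξ)) : ℂ) = ZMod.stdAddChar (j * ξ) := by
        rw [AddChar.map_neg_eq_conj, Complex.conj_conj]
      rw [e2, ← AddChar.map_add_eq_mul]
      congr 1
      ring
    rw [Complex.ofReal_sum]
    simp only [h1]
    rw [Finset.sum_comm]
    rw [Complex.ofReal_mul, Complex.ofReal_sum, Finset.mul_sum]
    refine Finset.sum_congr rfl fun j _ => ?_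
    rw [Finset.sum_comm]
    have h2 : ∀ k, ∑ ξ : ZMod Q, (ZMod.stdAddChar (ξ * (j - k)) : ℂ) * inner ℂ (v j) (v k) =
        if j = k then (Q : ℂ) * inner ℂ (v j) (v k) else 0 := by
      intro k
      rw [← Finset.sum_mul, AddChar.sum_mulShift _ (ZMod.isPrimitive_stdAddChar Q)]
      by_cases hjk : j = k
      · simp [hjk, ZMod.card]
      · simp [sub_ne_zero.2 hjk, hjk]
    simp only [h2]
    rw [Finset.sum_ite_eq]
    simp only [Finset.mem_univ, if_true]
    rw [inner_self_eq_norm_sq_to_K]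
    push_cast
    rfl
  exact_mod_cast h

lemma shift (v : ZMod Q → H) (k : ℕ) (ξ : ZMod Q) :
    F (fun j => v (j + (k : ZMod Q))) ξ = (ZMod.stdAddChar ξ : ℂ) ^ k • F v ξ := by
  unfold F
  rw [Finset.smul_sum]
  refine Fintype.sum_equiv (Equiv.addRight (k : ZMod Q)) _ _ fun j => ?_
  rw [Equiv.coe_addRight, smul_smul, ← AddChar.map_nsmul_eq_pow, ← AddChar.map_add_eq_mul]
  congr 2
  rw [nsmul_eq_mul]
  ring

lemma poly (v : ZMod Q → H) (p : Polynomial ℂ) (ξ : ZMod Q) :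
    F (fun j => ∑ k ∈ range (p.natDegree + 1), p.coeff k • v (j + (k : ZMod Q))) ξ =
      p.eval (ZMod.stdAddChar ξ : ℂ) • F v ξ := by
  rw [Polynomial.eval_eq_sum_range, Finset.sum_smul]
  simp only [← smul_smul, ← shift]
  unfold F
  simp only [Finset.smul_sum]
  rw [Finset.sum_comm]
  refine Finset.sum_congr rfl fun k _ => Finset.sum_congr rfl fun j _ => ?_
  rw [smul_comm]

lemma main (v : ZMod Q → H) (p : Polynomial ℂ) (hp : ∀ z : ℂ, ‖z‖ ≤ 1 → ‖p.eval z‖ ≤ 1) :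
    ∑ j, ‖∑ k ∈ range (p.natDegree + 1), p.coeff k • v (j + (k : ZMod Q))‖ ^ 2 ≤
      ∑ j, ‖v j‖ ^ 2 := by
  have hQ : (0 : ℝ) < Q := by exact_mod_cast Nat.pos_of_ne_zero (NeZero.ne Q)
  refine le_of_mul_le_mul_left ?_ hQ
  rw [← parseval v, ← parseval]
  refine Finset.sum_le_sum fun ξ _ => ?_
  rw [poly, norm_smul]
  have h1 : ‖p.eval (ZMod.stdAddChar ξ : ℂ)‖ ≤ 1 := hp _ (by
    rw [AddChar.norm_apply])
  have h2 : ‖p.eval (ZMod.stdAddChar ξ : ℂ)‖ * ‖F v ξ‖ ≤ ‖F v ξ‖ :=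
    mul_le_of_le_one_left (norm_nonneg _) h1
  gcongr

end Pool.Agent.C10.H0

namespace Pool.Agent.C10

open Finset

/-- (H0) transference inequality. -/
theorem modH0 : ModH0.{u} := by
  intro H _ _ p hp a N
  rcases Nat.eq_zero_or_pos N with rfl | hN
  · rw [Finset.sum_range_zero]
    positivity
  set Q := N + p.natDegree with hQ
  have : NeZero Q := ⟨by omega⟩
  set v : ZMod Q → H := fun x => a x.val with hv
  have h1 := H0.main v p hp
  rw [H0.sum_zmod, H0.sum_zmod] at h1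
  have hval : ∀ j, j < Q → ((j : ZMod Q)).val = j := fun j hj => ZMod.val_cast_of_lt hj
  have h2 : ∑ j ∈ range Q, ‖v (j : ZMod Q)‖ ^ 2 = ∑ j ∈ range Q, ‖a j‖ ^ 2 := by
    refine Finset.sum_congr rfl fun j hj => ?_
    rw [hv]
    simp only
    rw [hval j (Finset.mem_range.1 hj)]
  rw [h2] at h1
  refine le_trans ?_ h1
  have h3 : ∑ j ∈ range N, ‖∑ k ∈ range (p.natDegree + 1), p.coeff k • a (j + k)‖ ^ 2 =
      ∑ j ∈ range N, ‖∑ k ∈ range (p.natDegree + 1),
        p.coeff k • v ((j : ZMod Q) + (k : ZMod Q))‖ ^ 2 := by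
    refine Finset.sum_congr rfl fun j hj => ?_
    congr 2
    refine Finset.sum_congr rfl fun k hk => ?_
    rw [hv]
    simp only
    rw [← Nat.cast_add, hval (j + k) (by
      have := Finset.mem_range.1 hj
      have := Finset.mem_range.1 hk
      omega)]
  rw [h3]
  exact Finset.sum_le_sum_of_subset_of_nonneg
    (Finset.range_subset_range.2 (by omega)) fun j _ _ => by positivity

end Pool.Agent.C10
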