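import Pool.Agent.Lib_helper15.C10.Defs

/-!
# Module PU: splitting by partitions of unity on the circle
-/

set_option autoImplicit false

universe u

namespace Pool.Agent.C10.PU

open Filter Set
open scoped Topology

variable {F G : Type u} [NormedAddCommGroup F] [NormedSpace ℂ F] [NormedAddCommGroup G]
    [NormedSpace ℂ G]

/-- a real function as a complex one -/
noncomputable def cx (f : C(Circle, ℝ)) : C(Circle, ℂ) := ⟨fun z => ((f z : ℝ) : ℂ), by fun_prop⟩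

@[simp] lemma cx_apply (f : C(Circle, ℝ)) (z : Circle) : cx f z = ((f z : ℝ) : ℂ) := rfl

lemma exists_small (Ψ : C(Circle, ℂ) →L[ℂ] G) (hΨ : Ψ 1 ≠ 0) {δ : ℝ} (hδ : 0 < δ) :
    ∃ (c : Circle) (f : C(Circle, ℝ)), tsupport f ⊆ Metric.ball c δ ∧ Ψ (cx f) ≠ 0 := by
  obtain ⟨t, -, htf, ht⟩ := (isCompact_univ (X := Circle)).finite_cover_balls hδ
  have : Fintype t := htf.fintype
  obtain ⟨p, hp⟩ := PartitionOfUnity.exists_isSubordinate (X := Circle) (s := univ) isClosed_univ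
    (fun i : t => Metric.ball i.1 δ) (fun i => Metric.isOpen_ball) (by
      intro x hx
      obtain ⟨y, hy, hxy⟩ := mem_iUnion₂.1 (ht hx)
      exact mem_iUnion.2 ⟨⟨y, hy⟩, hxy⟩)
  by_contra hcon
  push Not at hcon
  apply hΨ
  have h1 : (1 : C(Circle, ℂ)) = ∑ i : t, cx (p i) := by
    ext x
    have hx := p.sum_eq_one (mem_univ x)
    rw [finsum_eq_sum_of_fintype] at hx
    rw [ContinuousMap.coe_sum, Finset.sum_apply]
    simp only [cx_apply, ContinuousMap.one_apply]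
    rw [← Complex.ofReal_sum, hx, Complex.ofReal_one]
  rw [h1, map_sum]
  exact Finset.sum_eq_zero fun i _ => hcon i.1 (p i) (hp i)

lemma key (Φ : C(Circle, ℂ) →L[ℂ] F) (Ψ : C(Circle, ℂ) →L[ℂ] G) (hΨ : Ψ 1 ≠ 0)
    (H : ∀ f f' : C(Circle, ℂ), f * f' = 0 → Ψ f ≠ 0 → Φ f' = 0) {δ : ℝ} (hδ : 0 < δ) :
    ∃ c : Circle, ∀ f, ‖Φ (zc * f) - (c : ℂ) • Φ f‖ ≤ ‖Φ‖ * (δ * ‖f‖) := by
  obtain ⟨c, g, hg, hgΨ⟩ := exists_small Ψ hΨ hδ
  refine ⟨c, fun f => ?_⟩
  obtain ⟨χ, h0, h1, h01⟩ := exists_continuous_zero_one_of_isClosed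
    (s := (Metric.ball c δ)ᶜ) (t := tsupport g) (Metric.isOpen_ball.isClosed_compl)
    (isClosed_tsupport _) (by
      rw [Set.disjoint_left]
      exact fun x hx hx2 => hx (hg hx2))
  set w : C(Circle, ℂ) := (zc - (c : ℂ) • (1 : C(Circle, ℂ))) * f with hw
  have e1 : Φ (zc * f) - (c : ℂ) • Φ f = Φ w := by
    rw [hw, sub_mul, map_sub, smul_mul_assoc, one_mul, map_smul]
  have e2 : Φ (w * (1 - cx χ)) = 0 := by
    apply H (cx g) _ _ hgΨ
    ext x
    simp only [ContinuousMap.mul_apply, ContinuousMap.sub_apply, ContinuousMap.one_apply,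
      cx_apply, ContinuousMap.zero_apply]
    by_cases hx : g x = 0
    · rw [hx]; simp
    · have : χ x = 1 := h1 (subset_tsupport _ (Function.mem_support.2 hx))
      rw [this]; simp
  have e3 : Φ w = Φ (w * cx χ) := by
    have : w = w * (1 - cx χ) + w * cx χ := by ring
    conv_lhs => rw [this]
    rw [map_add, e2, zero_add]
  rw [e1, e3]
  refine (Φ.le_opNorm _).trans ?_
  refine mul_le_mul_of_nonneg_left ?_ (norm_nonneg _)
  rw [ContinuousMap.norm_le _ (by positivity)]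
  intro x
  simp only [hw, ContinuousMap.mul_apply, ContinuousMap.sub_apply, ContinuousMap.smul_apply,
    ContinuousMap.one_apply, cx_apply, norm_mul, smul_eq_mul, mul_one]
  have hf : ‖f x‖ ≤ ‖f‖ := f.norm_coe_le_norm x
  by_cases hx : x ∈ Metric.ball c δ
  · have hz : ‖zc x - (c : ℂ)‖ ≤ δ := by
      have : dist x c < δ := hx
      rw [← dist_eq_norm]
      exact this.le
    have hχ : ‖((χ x : ℝ) : ℂ)‖ ≤ 1 := by
      rw [Complex.norm_real, Real.norm_eq_abs, abs_le]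
      have := h01 x
      exact ⟨by linarith [this.1], this.2⟩
    calc ‖zc x - (c : ℂ)‖ * ‖f x‖ * ‖((χ x : ℝ) : ℂ)‖ ≤ (δ * ‖f‖) * 1 := by gcongr
      _ = δ * ‖f‖ := mul_one _
  · have : χ x = 0 := h0 hx
    rw [this]
    simp only [Complex.ofReal_zero, norm_zero, mul_zero]
    positivity

end Pool.Agent.C10.PU

namespace Pool.Agent.C10

open Filter in
/-- (PU) splitting by partitions of unity. -/
theorem modPU : ModPU.{u} := by
  intro F G _ _ _ _ Φ Ψ _ hΨ
  by_contra hcon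
  push Not at hcon
  obtain ⟨H, hlam⟩ := hcon
  have H' : ∀ f f' : C(Circle, ℂ), f * f' = 0 → Ψ f ≠ 0 → Φ f' = 0 := by
    intro f f' h1 h2
    by_contra h3
    exact h2 (H f f' h1 h3)
  have hk : ∀ n : ℕ, ∃ c : Circle, ∀ f, ‖Φ (zc * f) - (c : ℂ) • Φ f‖ ≤
      ‖Φ‖ * ((1 / ((n : ℝ) + 1)) * ‖f‖) := fun n => PU.key Φ Ψ hΨ H' (by positivity)
  choose c hc using hk
  obtain ⟨a, -, φ, hφ, hφa⟩ := (isCompact_univ (X := Circle)).tendsto_subseq
    (x := c) (fun n => Set.mem_univ _)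
  obtain ⟨f, hf⟩ := hlam (a : ℂ)
  apply hf
  have t1 : Tendsto (fun n : ℕ => ‖Φ (zc * f) - (c (φ n) : ℂ) • Φ f‖) atTop (nhds 0) := by
    refine squeeze_zero (fun n => norm_nonneg _) (fun n => hc (φ n) f) ?_
    have h1 : Tendsto (fun n : ℕ => 1 / ((φ n : ℝ) + 1)) atTop (nhds 0) :=
      tendsto_one_div_add_atTop_nhds_zero_nat.comp hφ.tendsto_atTop
    have h2 := (h1.mul_const ‖f‖).const_mul ‖Φ‖
    simpa using h2
  have t2 : Tendsto (fun n : ℕ => ‖Φ (zc * f) - (c (φ n) : ℂ) • Φ f‖) atTop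
      (nhds ‖Φ (zc * f) - (a : ℂ) • Φ f‖) := by
    have hca : Tendsto (fun n => ((c (φ n) : Circle) : ℂ)) atTop (nhds (a : ℂ)) :=
      (continuous_subtype_val.tendsto a).comp hφa
    exact (tendsto_const_nhds.sub (hca.smul_const _)).norm
  have := tendsto_nhds_unique t2 t1
  rwa [norm_eq_zero, sub_eq_zero] at this

end Pool.Agent.C10
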