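import Pool.Agent.Lib_helper15.C10.Defs

/-!
# Module TR: transposition
-/

set_option autoImplicit false
set_option synthInstance.maxHeartbeats 400000
set_option maxHeartbeats 4000000

universe u

namespace Pool.Agent.C10.TR

open Filter Set
open scoped Topology

variable {E : Type u} [NormedAddCommGroup E] [NormedSpace ℂ E]

@[simp] lemma tr_apply (T : E →L[ℂ] E) (φ : E →L[ℂ] ℂ) : tr T φ = φ.comp T := rfl

lemma tr_one : tr (1 : E →L[ℂ] E) = 1 := by
  ext φ x
  rfl

lemma tr_mul (A B : E →L[ℂ] E) : tr (A * B) = tr B * tr A := by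
  ext φ x
  rfl

lemma tr_pow (T : E →L[ℂ] E) (n : ℕ) : tr (T ^ n) = tr T ^ n := by
  induction n with
  | zero => simp [tr_one]
  | succ n ih => rw [pow_succ, tr_mul, ih, ← pow_succ']

lemma tr_pow_apply (T : E →L[ℂ] E) (n : ℕ) (φ : E →L[ℂ] ℂ) :
    (tr T ^ n) φ = φ.comp (T ^ n) := by
  rw [← tr_pow]
  rfl

lemma tr_add (A B : E →L[ℂ] E) : tr (A + B) = tr A + tr B := by
  ext φ x
  simp

lemma tr_smul (c : ℂ) (A : E →L[ℂ] E) : tr (c • A) = c • tr A := by
  ext φ x
  simp

lemma tr_aeval (T : E →L[ℂ] E) (p : Polynomial ℂ) :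
    Polynomial.aeval (tr T) p = tr (Polynomial.aeval T p) := by
  induction p using Polynomial.induction_on' with
  | add p q hp hq => rw [map_add, map_add, hp, hq, tr_add]
  | monomial n a =>
    rw [Polynomial.aeval_monomial, Polynomial.aeval_monomial, ← tr_pow,
      Algebra.algebraMap_eq_smul_one, Algebra.algebraMap_eq_smul_one, smul_mul_assoc,
      smul_mul_assoc, one_mul, one_mul, tr_smul]

lemma norm_tr_le (A : E →L[ℂ] E) : ‖tr A‖ ≤ ‖A‖ := by
  refine ContinuousLinearMap.opNorm_le_bound _ (norm_nonneg _) fun φ => ?_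
  rw [tr_apply, mul_comm]
  exact φ.opNorm_comp_le A

lemma exists_sep {X : Type u} [NormedAddCommGroup X] [NormedSpace ℂ X] (M : Submodule ℂ X)
    (hM : IsClosed (M : Set X)) {x : X} (hx : x ∉ M) :
    ∃ ξ : X →L[ℂ] ℂ, ξ x ≠ 0 ∧ ∀ y ∈ M, ξ y = 0 := by
  have : IsClosed (M : Set X) := hM
  have h1 : M.mkQL x ≠ 0 := by
    intro h
    apply hx
    rw [Submodule.mkQL_apply] at h
    exact (Submodule.Quotient.mk_eq_zero M).1 h
  obtain ⟨g, -, hg⟩ := exists_dual_vector ℂ (M.mkQL x) (norm_ne_zero_iff.2 h1)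
  refine ⟨g.comp M.mkQL, ?_, fun y hy => ?_⟩
  · rw [ContinuousLinearMap.comp_apply, hg]
    simpa using h1
  · rw [ContinuousLinearMap.comp_apply, Submodule.mkQL_apply]
    have : M.mkQ y = 0 := (Submodule.Quotient.mk_eq_zero M).2 hy
    rw [this, map_zero]

lemma eq_zero_of_dual {x : E} (h : ∀ φ : E →L[ℂ] ℂ, φ x = 0) : x = 0 := by
  by_contra hx
  obtain ⟨g, -, hg⟩ := exists_dual_vector ℂ x (norm_ne_zero_iff.2 hx)
  rw [h g] at hg
  exact hx (norm_eq_zero.1 (Complex.ofReal_eq_zero.1 hg.symm))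

/-- a space with separable dual is separable -/
lemma separable_of_dual [TopologicalSpace.SeparableSpace (E →L[ℂ] ℂ)] :
    TopologicalSpace.SeparableSpace E := by
  obtain ⟨s, hsc, hsd⟩ := TopologicalSpace.exists_countable_dense (E →L[ℂ] ℂ)
  have hex : ∀ φ : E →L[ℂ] ℂ, ∃ x : E, ‖x‖ ≤ 1 ∧ ‖φ‖ / 2 ≤ ‖φ x‖ := by
    intro φ
    by_cases h0 : φ = 0
    · exact ⟨0, by simp, by simp [h0]⟩
    · have hpos : 0 < ‖φ‖ := norm_pos_iff.2 h0
      obtain ⟨x, hx1, hx2⟩ := φ.exists_lt_apply_of_lt_opNorm (half_lt_self hpos)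
      exact ⟨x, hx1.le, hx2.le⟩
  choose f hf1 hf2 using hex
  set M : Submodule ℂ E := (Submodule.span ℂ (f '' s)).topologicalClosure with hM
  have hMtop : M = ⊤ := by
    by_contra hne
    obtain ⟨x, hx⟩ : ∃ x, x ∉ M := by
      by_contra hcon
      push Not at hcon
      exact hne (Submodule.eq_top_iff'.2 hcon)
    obtain ⟨ξ, hξx, hξM⟩ := exists_sep M (Submodule.isClosed_topologicalClosure _) hx
    have hξ0 : 0 < ‖ξ‖ := by
      rw [norm_pos_iff]
      rintro rfl
      exact hξx rfl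
    obtain ⟨η, hηs, hη⟩ := hsd.exists_dist_lt ξ (show (0 : ℝ) < ‖ξ‖ / 4 by positivity)
    rw [dist_eq_norm] at hη
    have h1 : ξ (f η) = 0 := hξM _ (Submodule.le_topologicalClosure _
      (Submodule.subset_span ⟨η, hηs, rfl⟩))
    have h2 : ‖η‖ / 2 ≤ ‖ξ - η‖ := by
      calc ‖η‖ / 2 ≤ ‖η (f η)‖ := hf2 η
        _ = ‖(ξ - η) (f η)‖ := by
          rw [sub_apply, h1, zero_sub, norm_neg]
        _ ≤ ‖ξ - η‖ * ‖f η‖ := ContinuousLinearMap.le_opNorm _ _
        _ ≤ ‖ξ - η‖ * 1 := by gcongr; exact hf1 η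
        _ = ‖ξ - η‖ := mul_one _
    have h3 : ‖ξ‖ ≤ ‖ξ - η‖ + ‖η‖ := by
      have := norm_add_le (ξ - η) η
      simpa using this
    linarith
  have hsep : TopologicalSpace.IsSeparable (M : Set E) := by
    rw [hM, Submodule.topologicalClosure_coe]
    exact ((hsc.image f).isSeparable.span (R := ℂ)).closure
  rw [hMtop, Submodule.top_coe] at hsep
  exact TopologicalSpace.isSeparable_univ_iff.1 hsep

lemma incl_apply (x : E) (φ : E →L[ℂ] ℂ) :
    NormedSpace.inclusionInDoubleDual ℂ E x φ = φ x := rfl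

lemma norm_incl (x : E) : ‖NormedSpace.inclusionInDoubleDual ℂ E x‖ = ‖x‖ :=
  (NormedSpace.inclusionInDoubleDualLi (E := E) ℂ).norm_map x

lemma refl_dual (h : Refl E) : Refl (E →L[ℂ] ℂ) := by
  intro Λ
  refine ⟨Λ.comp (NormedSpace.inclusionInDoubleDual ℂ E), ?_⟩
  ext ξ
  obtain ⟨x, rfl⟩ := h ξ
  rfl

lemma stable_iff (h : Refl E) (T : E →L[ℂ] E) : Stable T ↔ CoStable (tr T) := by
  have key : ∀ (x : E) (n : ℕ), (NormedSpace.inclusionInDoubleDual ℂ E x).comp ((tr T) ^ n) =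
      NormedSpace.inclusionInDoubleDual ℂ E ((T ^ n) x) := by
    intro x n
    ext φ
    rw [ContinuousLinearMap.comp_apply, tr_pow_apply]
    rfl
  constructor
  · intro hT ξ
    obtain ⟨x, rfl⟩ := h ξ
    simp only [key]
    have := ((NormedSpace.inclusionInDoubleDual ℂ E).continuous.tendsto 0).comp (hT x)
    rw [map_zero] at this
    exact this
  · intro hT x
    have := hT (NormedSpace.inclusionInDoubleDual ℂ E x)
    simp only [key] at this
    rw [tendsto_zero_iff_norm_tendsto_zero] at this ⊢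
    simpa only [norm_incl] using this

lemma hyper_of_tr (h : Refl E) (T : E →L[ℂ] E) (hT : HasHyper (tr T)) : HasHyper T := by
  obtain ⟨M, hMc, hMb, hMt, hM⟩ := hT
  refine ⟨{ carrier := {x | ∀ φ ∈ M, φ x = 0}, add_mem' := ?_, zero_mem' := ?_,
            smul_mem' := ?_ }, ?_, ?_, ?_, ?_⟩
  · intro a b ha hb φ hφ
    rw [map_add, ha φ hφ, hb φ hφ, add_zero]
  · intro φ _
    exact map_zero φ
  · intro c x hx φ hφ
    rw [map_smul, hx φ hφ, smul_zero]
  · have : {x : E | ∀ φ ∈ M, φ x = 0} = ⋂ φ ∈ M, φ ⁻¹' {0} := by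
      ext x
      simp
    change IsClosed {x : E | ∀ φ ∈ M, φ x = 0}
    rw [this]
    exact isClosed_biInter fun φ _ => isClosed_singleton.preimage φ.continuous
  · obtain ⟨φ, hφ⟩ : ∃ φ, φ ∉ M := by
      by_contra hcon
      push Not at hcon
      exact hMt (Submodule.eq_top_iff'.2 hcon)
    obtain ⟨ξ, hξ, hξM⟩ := exists_sep M hMc hφ
    obtain ⟨x, rfl⟩ := h ξ
    intro hbot
    have hx : x ∈ ({ carrier := {x | ∀ φ ∈ M, φ x = 0}, add_mem' := by
                      intro a b ha hb φ hφ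
                      rw [map_add, ha φ hφ, hb φ hφ, add_zero]
                     zero_mem' := fun φ _ => map_zero φ, smul_mem' := by
                      intro c x hx φ hφ
                      rw [map_smul, hx φ hφ, smul_zero] } : Submodule ℂ E) :=
      fun ψ hψ => hξM ψ hψ
    rw [hbot, Submodule.mem_bot] at hx
    apply hξ
    rw [hx, map_zero]
    rfl
  · intro htop
    apply hMb
    rw [Submodule.eq_bot_iff]
    intro φ hφ
    ext x
    have hx : x ∈ (⊤ : Submodule ℂ E) := trivial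
    rw [← htop] at hx
    exact hx φ hφ
  · intro A hA x hx φ hφ
    have h1 : tr A * tr T = tr T * tr A := by
      rw [← tr_mul, ← tr_mul, hA]
    exact hx _ (hM (tr A) h1 φ hφ)

end Pool.Agent.C10.TR

namespace Pool.Agent.C10

open Filter Set
open scoped Topology

/-- (TR) transposition. -/
theorem modTR : ModTR.{u} := by
  intro E _ _ _
  refine ⟨fun T C hT p B hB => ?_, fun T hT c hc => hT c ?_, fun T => ?_, fun hE =>
    ⟨TR.refl_dual hE, TR.stable_iff hE, TR.hyper_of_tr hE, fun hs => ?_⟩⟩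
  · rw [TR.tr_aeval]
    exact (TR.norm_tr_le _).trans (hT p B hB)
  · ext x
    rw [← sub_eq_zero]
    apply TR.eq_zero_of_dual
    intro φ
    have h1 : tr T φ x = (c • (1 : (E →L[ℂ] ℂ) →L[ℂ] (E →L[ℂ] ℂ))) φ x := by rw [hc]
    rw [map_sub, sub_eq_zero]
    simpa using h1
  · unfold CoStable Stable
    simp only [TR.tr_pow_apply]
  · have h1 : TopologicalSpace.SeparableSpace ((E →L[ℂ] ℂ) →L[ℂ] ℂ) :=
      hE.denseRange.separableSpace (NormedSpace.inclusionInDoubleDual ℂ E).continuous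
    exact TR.separable_of_dual

end Pool.Agent.C10
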