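import Pool.Agent.Lib_helper15.C10.Defs3
import Pool.Agent.Lib_helper69.C10.S1

/-!
# Module H2: intertwining maps from the asymptotic form
-/

set_option autoImplicit false
set_option synthInstance.maxHeartbeats 400000
set_option maxHeartbeats 4000000

universe u

namespace Pool.Agent.C10.H2

open Filter Set
open scoped Topology

variable {H : Type u} [NormedAddCommGroup H] [InnerProductSpace ℂ H]

/-- Cauchy-Schwarz for a positive semidefinite Hermitian form -/
lemma cs (B : H →L⋆[ℂ] H →L[ℂ] ℂ) (hs : ∀ x y, B y x = (starRingEnd ℂ) (B x y))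
    (hp : ∀ x, 0 ≤ (B x x).re) (x y : H) :
    ‖B x y‖ ^ 2 ≤ (B x x).re * (B y y).re := by
  let c : PreInnerProductSpace.Core ℂ H :=
    { inner := fun x y => B x y
      conj_inner_symm := fun x y => (hs y x).symm
      re_inner_nonneg := fun x => hp x
      add_left := fun x y z => by rw [map_add, add_apply]
      smul_left := fun x y r => by rw [map_smulₛₗ, smul_apply, smul_eq_mul] }
  have h := @InnerProductSpace.Core.inner_mul_inner_self_le ℂ H _ _ _ c x y
  have h2 : ‖B y x‖ = ‖B x y‖ := by rw [hs x y, RCLike.norm_conj]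
  change ‖B x y‖ * ‖B y x‖ ≤ (B x x).re * (B y y).re at h
  rw [h2] at h
  rw [pow_two]
  exact h

lemma inv_pow (T : H →L[ℂ] H) (B : H →L⋆[ℂ] H →L[ℂ] ℂ) (hi : ∀ x y, B (T x) (T y) = B x y)
    (j : ℕ) (x y : H) : B ((T ^ j) x) ((T ^ j) y) = B x y := by
  induction j with
  | zero => simp
  | succ j ih =>
    have h1 : ∀ v, (T ^ (j + 1)) v = T ((T ^ j) v) := fun v => by rw [pow_succ']; rfl
    rw [h1, h1, hi, ih]

/-- Laurent polynomials are shifts of polynomials with the same bound. -/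
lemma exists_poly (a : ℤ →₀ ℂ) : ∃ (n : ℕ) (P : Polynomial ℂ),
    (∀ k ∈ a.support, 0 ≤ (n : ℤ) + k) ∧ (∀ z : ℂ, ‖z‖ ≤ 1 → ‖P.eval z‖ ≤ ‖S1.ev a‖) ∧
    ∀ (T : H →L[ℂ] H), Polynomial.aeval T P =
      ∑ k ∈ a.support, a k • T ^ ((n : ℤ) + k).toNat := by
  obtain ⟨n, hn⟩ := (S1.ev_nonneg a).exists
  set P : Polynomial ℂ := ∑ k ∈ a.support, a k • Polynomial.X ^ ((n : ℤ) + k).toNat with hP
  refine ⟨n, P, hn, ?_, fun T => ?_⟩
  · have hsphere : ∀ w : ℂ, ‖w‖ = 1 → ‖P.eval w‖ ≤ ‖S1.ev a‖ := by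
      intro w hw
      set z : Circle := ⟨w, mem_sphere_zero_iff_norm.2 hw⟩ with hz
      have hzw : (z : ℂ) = w := rfl
      have h0 : w ≠ 0 := by
        intro h
        rw [h, norm_zero] at hw
        exact zero_ne_one hw
      have h2 : P.eval w = w ^ n * S1.ev a z := by
        rw [hP, Polynomial.eval_finsetSum, S1.ev, Finsupp.linearCombination_apply, Finsupp.sum,
          ContinuousMap.sum_apply, Finset.mul_sum]
        refine Finset.sum_congr rfl fun k hk => ?_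
        rw [Polynomial.eval_smul, Polynomial.eval_pow, Polynomial.eval_X,
          ContinuousMap.smul_apply, S1.e_apply, hzw, smul_eq_mul, smul_eq_mul]
        have h3 : w ^ ((n : ℤ) + k).toNat = w ^ n * w ^ k := by
          rw [← zpow_natCast, Int.toNat_of_nonneg (hn k hk), zpow_add₀ h0, zpow_natCast]
        rw [h3]
        ring
      rw [h2, norm_mul, norm_pow, hw, one_pow, one_mul]
      exact ContinuousMap.norm_coe_le_norm _ _
    intro z hz
    have hcl : z ∈ closure (Metric.ball (0 : ℂ) 1) := by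
      rw [closure_ball (0 : ℂ) one_ne_zero]
      simpa using hz
    refine Complex.norm_le_of_forall_mem_frontier_norm_le Metric.isBounded_ball
      (P.differentiable.diffContOnCl) ?_ hcl
    intro w hw
    rw [frontier_ball (0 : ℂ) one_ne_zero] at hw
    exact hsphere w (by simpa using hw)
  · rw [hP, map_sum]
    refine Finset.sum_congr rfl fun k _ => ?_
    rw [map_smul, map_pow, Polynomial.aeval_X]

/-- contractivity with a bound -/
lemma contr (T : H →L[ℂ] H) (B : H →L⋆[ℂ] H →L[ℂ] ℂ)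
    (hc : ∀ p : Polynomial ℂ, (∀ z : ℂ, ‖z‖ ≤ 1 → ‖p.eval z‖ ≤ 1) → ∀ x,
      (B (Polynomial.aeval T p x) (Polynomial.aeval T p x)).re ≤ (B x x).re)
    (P : Polynomial ℂ) (r : ℝ) (hr : 0 ≤ r) (hP : ∀ z : ℂ, ‖z‖ ≤ 1 → ‖P.eval z‖ ≤ r) (x : H) :
    (B (Polynomial.aeval T P x) (Polynomial.aeval T P x)).re ≤ r ^ 2 * (B x x).re := by
  have h1 : ∀ δ : ℝ, 0 < δ → (B (Polynomial.aeval T P x) (Polynomial.aeval T P x)).re ≤
      (r + δ) ^ 2 * (B x x).re := by
    intro δ hδ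
    have hpos : 0 < r + δ := by linarith
    have hne : ((r + δ : ℝ) : ℂ) ≠ 0 := by exact_mod_cast hpos.ne'
    set p : Polynomial ℂ := ((r + δ : ℝ) : ℂ)⁻¹ • P with hp
    have hp1 : ∀ z : ℂ, ‖z‖ ≤ 1 → ‖p.eval z‖ ≤ 1 := by
      intro z hz
      rw [hp, Polynomial.eval_smul, norm_smul, norm_inv, Complex.norm_real, Real.norm_eq_abs,
        abs_of_pos hpos, inv_mul_le_iff₀ hpos, mul_one]
      exact (hP z hz).trans (by linarith)
    have hPp : P = ((r + δ : ℝ) : ℂ) • p := by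
      rw [hp, smul_smul, mul_inv_cancel₀ hne, one_smul]
    have h2 := hc p hp1 x
    have h3 : (B (Polynomial.aeval T P x) (Polynomial.aeval T P x)).re =
        (r + δ) ^ 2 * (B (Polynomial.aeval T p x) (Polynomial.aeval T p x)).re := by
      have hy : Polynomial.aeval T P x = ((r + δ : ℝ) : ℂ) • Polynomial.aeval T p x := by
        rw [hPp, map_smul, smul_apply]
      rw [hy, (B (((r + δ : ℝ) : ℂ) • Polynomial.aeval T p x)).map_smul, B.map_smulₛₗ, smul_apply,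
        smul_eq_mul, smul_eq_mul, Complex.conj_ofReal, Complex.re_ofReal_mul,
        Complex.re_ofReal_mul]
      ring
    rw [h3]
    exact mul_le_mul_of_nonneg_left h2 (sq_nonneg _)
  have h2 : Tendsto (fun δ : ℝ => (r + δ) ^ 2 * (B x x).re) (𝓝[>] 0)
      (𝓝 (r ^ 2 * (B x x).re)) := by
    have : Continuous fun δ : ℝ => (r + δ) ^ 2 * (B x x).re := by fun_prop
    have h3 := this.tendsto 0
    rw [add_zero] at h3
    exact h3.mono_left nhdsWithin_le_nhds
  exact ge_of_tendsto h2 (eventually_mem_nhdsWithin.mono fun δ hδ => h1 δ hδ)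

/-- values at `z^k` -/
noncomputable def g (T : H →L[ℂ] H) (B : H →L⋆[ℂ] H →L[ℂ] ℂ) (x₀ : H) (k : ℤ) : H →L[ℂ] ℂ :=
  (B ((T ^ (-k).toNat) x₀)).comp (T ^ k.toNat)

/-- the map on Laurent polynomials -/
noncomputable def φ0 (T : H →L[ℂ] H) (B : H →L⋆[ℂ] H →L[ℂ] ℂ) (x₀ : H) :
    (ℤ →₀ ℂ) →ₗ[ℂ] (H →L[ℂ] ℂ) := Finsupp.linearCombination ℂ (g T B x₀)

lemma g_shift (T : H →L[ℂ] H) (B : H →L⋆[ℂ] H →L[ℂ] ℂ) (hi : ∀ x y, B (T x) (T y) = B x y)
    (x₀ : H) (n : ℕ) (k : ℤ) (hn : 0 ≤ (n : ℤ) + k) (x : H) :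
    B ((T ^ n) x₀) ((T ^ ((n : ℤ) + k).toNat) x) = g T B x₀ k x := by
  have hpow : ∀ (i j : ℕ) (v : H), (T ^ (i + j)) v = (T ^ i) ((T ^ j) v) := by
    intro i j v
    rw [pow_add]; rfl
  rcases le_or_gt 0 k with hk | hk
  · obtain ⟨m, rfl⟩ := Int.eq_ofNat_of_zero_le hk
    have h1 : ((n : ℤ) + (m : ℤ)).toNat = n + m := by omega
    have h2 : (-(m : ℤ)).toNat = 0 := by omega
    have h3 : ((m : ℤ)).toNat = m := by omega
    rw [h1, hpow, inv_pow T B hi, g, h2, h3]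
    simp
  · obtain ⟨m, hm⟩ : ∃ m : ℕ, k = -(m : ℤ) := ⟨(-k).toNat, by omega⟩
    obtain ⟨j, rfl⟩ : ∃ j : ℕ, n = j + m := ⟨n - m, by omega⟩
    have h1 : (((j + m : ℕ) : ℤ) + k).toNat = j := by omega
    have h2 : (-k).toNat = m := by omega
    have h3 : k.toNat = 0 := by omega
    rw [h1, hpow, inv_pow T B hi, g, h2, h3]
    simp

lemma bound (T : H →L[ℂ] H) (B : H →L⋆[ℂ] H →L[ℂ] ℂ)
    (hs : ∀ x y, B y x = (starRingEnd ℂ) (B x y)) (hp : ∀ x, 0 ≤ (B x x).re)
    (hi : ∀ x y, B (T x) (T y) = B x y)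
    (hc : ∀ p : Polynomial ℂ, (∀ z : ℂ, ‖z‖ ≤ 1 → ‖p.eval z‖ ≤ 1) → ∀ x,
      (B (Polynomial.aeval T p x) (Polynomial.aeval T p x)).re ≤ (B x x).re)
    (x₀ : H) (a : ℤ →₀ ℂ) :
    ‖φ0 T B x₀ a‖ ≤ √((B x₀ x₀).re * ‖B‖) * ‖S1.ev a‖ := by
  refine ContinuousLinearMap.opNorm_le_bound _ (by positivity) fun x => ?_
  obtain ⟨n, P, hn, hP, hT⟩ := exists_poly (H := H) a
  have h1 : φ0 T B x₀ a x = B ((T ^ n) x₀) (Polynomial.aeval T P x) := by
    rw [hT, φ0, Finsupp.linearCombination_apply, Finsupp.sum, sum_apply, sum_apply, map_sum]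
    refine Finset.sum_congr rfl fun k hk => ?_
    rw [smul_apply, smul_apply, map_smul, g_shift T B hi x₀ n k (hn k hk)]
  rw [h1]
  have h2 := cs B hs hp ((T ^ n) x₀) (Polynomial.aeval T P x)
  have h3 : (B ((T ^ n) x₀) ((T ^ n) x₀)).re = (B x₀ x₀).re := by rw [inv_pow T B hi]
  have h4 := contr T B hc P ‖S1.ev a‖ (norm_nonneg _) hP x
  have h5 : (B x x).re ≤ ‖B‖ * ‖x‖ * ‖x‖ :=
    ((Complex.re_le_norm _).trans (B.le_opNorm₂ x x))
  rw [h3] at h2
  have h0 := hp x₀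
  have h6 : ‖B ((T ^ n) x₀) (Polynomial.aeval T P x)‖ ^ 2 ≤
      (√((B x₀ x₀).re * ‖B‖) * ‖S1.ev a‖ * ‖x‖) ^ 2 := by
    calc ‖B ((T ^ n) x₀) (Polynomial.aeval T P x)‖ ^ 2
        ≤ (B x₀ x₀).re * (‖S1.ev a‖ ^ 2 * (‖B‖ * ‖x‖ * ‖x‖)) :=
          h2.trans (mul_le_mul_of_nonneg_left (h4.trans
            (mul_le_mul_of_nonneg_left h5 (sq_nonneg _))) h0)
      _ = (√((B x₀ x₀).re * ‖B‖) * ‖S1.ev a‖ * ‖x‖) ^ 2 := by
          have hsq : √((B x₀ x₀).re * ‖B‖) ^ 2 = (B x₀ x₀).re * ‖B‖ :=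
            Real.sq_sqrt (mul_nonneg h0 (ContinuousLinearMap.opNorm_nonneg B))
          rw [mul_pow, mul_pow, hsq]
          ring
  exact le_of_sq_le_sq h6 (by positivity)

end Pool.Agent.C10.H2

namespace Pool.Agent.C10

open Filter Set
open scoped Topology

/-- (H2) intertwining maps from the form. -/
theorem modH2 : ModH2.{u} := by
  intro H _ _ T M B hB x₀
  obtain ⟨hs, hp, hi, -, hc⟩ := hB
  set Φ : C(Circle, ℂ) →L[ℂ] (H →L[ℂ] ℂ) := (H2.φ0 T B x₀).extendOfNorm S1.ev with hΦ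
  have hev : ∀ a : ℤ →₀ ℂ, Φ (S1.ev a) = H2.φ0 T B x₀ a := fun a =>
    LinearMap.extendOfNorm_eq S1.ev_dense ⟨_, H2.bound T B hs hp hi hc x₀⟩ a
  have he : ∀ k : ℤ, Φ (S1.e k) = H2.g T B x₀ k := by
    intro k
    have h1 := hev (Finsupp.single k 1)
    rw [S1.ev_single, one_smul] at h1
    rw [h1, H2.φ0]
    simp
  refine ⟨Φ, ?_, ?_⟩
  · have key : ∀ (k : ℤ) (x : H), Φ (zc * S1.e k) x = Φ (S1.e k) (T x) := by
      intro k x
      rw [S1.zc_mul_e, he, he]
      rcases le_or_gt 0 k with hk | hk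
      · obtain ⟨m, rfl⟩ := Int.eq_ofNat_of_zero_le hk
        have h1 : (-((m : ℤ) + 1)).toNat = 0 := by omega
        have h2 : ((m : ℤ) + 1).toNat = m + 1 := by omega
        have h3 : (-(m : ℤ)).toNat = 0 := by omega
        have h4 : ((m : ℤ)).toNat = m := by omega
        rw [H2.g, H2.g, h1, h2, h3, h4, pow_succ]
        rfl
      · obtain ⟨m, hm⟩ : ∃ m : ℕ, k = -((m : ℤ) + 1) := ⟨(-k - 1).toNat, by omega⟩
        have h1 : (-(k + 1)).toNat = m := by omega
        have h2 : (k + 1).toNat = 0 := by omega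
        have h3 : (-k).toNat = m + 1 := by omega
        have h4 : k.toNat = 0 := by omega
        have h5 : (T ^ (m + 1)) x₀ = T ((T ^ m) x₀) := by rw [pow_succ']; rfl
        rw [H2.g, H2.g, h1, h2, h3, h4, h5]
        simp only [pow_zero, ContinuousLinearMap.comp_apply, one_apply_eq_self]
        rw [hi]
    intro f x
    have hcl : IsClosed {f : C(Circle, ℂ) | Φ (zc * f) x = Φ f (T x)} := by
      apply isClosed_eq
      · exact ((ContinuousLinearMap.apply ℂ ℂ x).continuous.comp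
          Φ.continuous).comp (continuous_const.mul continuous_id)
      · exact (ContinuousLinearMap.apply ℂ ℂ (T x)).continuous.comp Φ.continuous
    have hmem : ∀ a : ℤ →₀ ℂ, S1.ev a ∈ {f : C(Circle, ℂ) | Φ (zc * f) x = Φ f (T x)} := by
      intro a
      induction a using Finsupp.induction_linear with
      | zero => simp
      | add a b ha hb =>
        simp only [Set.mem_ofPred_eq] at ha hb ⊢
        rw [map_add, mul_add, map_add, map_add, add_apply, add_apply, ha, hb]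
      | single k c =>
        simp only [Set.mem_ofPred_eq]
        rw [S1.ev_single, mul_smul_comm, map_smul, map_smul, smul_apply, smul_apply, key]
    exact S1.ev_dense.induction_on (p := fun f : C(Circle, ℂ) => Φ (zc * f) x = Φ f (T x))
      f hcl hmem
  · intro x
    rw [← S1.e_zero, he, H2.g]
    simp

end Pool.Agent.C10
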